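import Pool.Agent.Helper11.S3.Sheet
open MeasureTheory Metric Set Filter Topology Real
open scoped ENNReal NNReal

/-! S3, row ARC: a half great circle. -/

namespace H11ST
namespace S3

namespace Arc

theorem nsq {u g : E 3} (hu : ‖u‖ = 1) (hg : ‖g‖ = 1) (hug : inner ℝ u g = (0 : ℝ)) (a b : ℝ) :
    ‖a • u + b • g‖ ^ 2 = a ^ 2 + b ^ 2 := by
  rw [norm_add_sq_real, norm_smul, norm_smul, hu, hg, inner_smul_left, inner_smul_right, hug]
  simp [sq_abs]

theorem lip {u g : E 3} (hu : ‖u‖ = 1) (hg : ‖g‖ = 1) (hug : inner ℝ u g = (0 : ℝ)) (x : E 3)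
    {ρ : ℝ} (hρ : 0 < ρ) :
    LipschitzWith ⟨ρ, hρ.le⟩ (fun s : ℝ => x + ρ • (sin s • u + cos s • g)) := by
  refine LipschitzWith.of_dist_le_mul fun s t => ?_
  rw [dist_eq_norm, Real.dist_eq]
  have e1 : x + ρ • (sin s • u + cos s • g) - (x + ρ • (sin t • u + cos t • g)) =
      ρ • ((sin s - sin t) • u + (cos s - cos t) • g) := by
    rw [sub_smul, sub_smul]; module
  rw [e1, norm_smul, Real.norm_of_nonneg hρ.le]
  refine mul_le_mul_of_nonneg_left ?_ hρ.le
  refine abs_le_of_sq_le_sq' ?_ (abs_nonneg _) |>.2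
  rw [nsq hu hg hug, sq_abs]
  have h1 := Real.one_sub_sq_div_two_le_cos (x := s - t)
  rw [cos_sub] at h1
  nlinarith [sin_sq_add_cos_sq s, sin_sq_add_cos_sq t]

end Arc

open Arc in
theorem arc : S3_ARC := by
  intro x ρ hρ u g hu hg hug
  have hl := lip hu hg hug x hρ
  refine ⟨?_, ?_, ?_, ?_, ?_⟩
  · exact (isCompact_Icc.image hl.continuous).isClosed
  · exact isPreconnected_Icc.image _ hl.continuous.continuousOn
  · rintro _ ⟨s, -, rfl⟩
    rw [mem_closedBall, dist_eq_norm, add_sub_cancel_left, norm_smul, Real.norm_of_nonneg hρ.le]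
    have h1 : ‖sin s • u + cos s • g‖ ^ 2 = 1 := by rw [nsq hu hg hug]; exact sin_sq_add_cos_sq s
    have h2 : ‖sin s • u + cos s • g‖ = 1 := by
      have := norm_nonneg (sin s • u + cos s • g)
      nlinarith
    rw [h2, mul_one]
  · positivity
  · refine (hl.hausdorffMeasure_image_le (by norm_num : (0:ℝ) ≤ 1) _).trans ?_
    rw [ENNReal.rpow_one, hausdorffMeasure_real, Real.volume_Icc, sub_zero]
    rw [mul_comm π ρ, ENNReal.ofReal_mul hρ.le]
    refine le_of_eq ?_
    congr 1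
    rw [ENNReal.ofReal, Real.toNNReal_of_nonneg hρ.le]
    rfl

end S3
end H11ST
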